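import Pool.Agent.H120R2.CliqueDefs
import Pool.Agent.H613T.Defs
import Pool.Agent.TH440.DC.Main

/-!
# Covering systems and Turán densities of complete hypergraphs

`tau R t = 1 - π(K_{t+R}^t)` is the least `c` for which there are covering systems of relative size
at most `c` for all numbers of vertices.
-/

set_option autoImplicit false

open Finset Filter Topology

namespace Run7.h538.LC

open Pool.Agent.H120R2.Clique Pool.Agent.H613T

/-- the limit density of the smallest families of `t`-sets with a member in every `(t+R)`-set -/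
noncomputable def tau (R t : ℕ) : ℝ := 1 - turanDensity t (t + R)

theorem exists_ex {n k m : ℕ} (hkm : k ≤ m) :
    ∃ G : Finset (Finset (Fin n)), (∀ A ∈ G, A.card = k) ∧ ¬ HasClique G k m ∧
      G.card = ex n k m := by
  classical
  have hne : ((((univ : Finset (Fin n)).powersetCard k).powerset).filter
    (fun G => ¬ HasClique G k m)).Nonempty := by
    refine ⟨∅, ?_⟩
    rw [mem_filter, mem_powerset]
    refine ⟨empty_subset _, ?_⟩
    rintro ⟨A, hA, hAs⟩
    have h1 : (A.powersetCard k).Nonempty := by
      rw [powersetCard_nonempty]; omega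
    obtain ⟨B, hB⟩ := h1
    exact absurd (hAs hB) (notMem_empty _)
  obtain ⟨G, hG, hGs⟩ := Finset.exists_mem_eq_sup _ hne Finset.card
  rw [mem_filter, mem_powerset] at hG
  refine ⟨G, fun A hA => (mem_powersetCard.1 (hG.1 hA)).2, hG.2, ?_⟩
  unfold ex
  convert hGs.symm using 2

theorem density_mul_le {n k m : ℕ} (hk : k ≤ n) :
    turanDensity k m * (n.choose k : ℝ) ≤ (ex n k m : ℝ) := by
  have hanti := ratio_antitone k m
  have htend : Tendsto (fun n : ℕ => (ex (n + k) k m : ℝ) / ((n + k).choose k : ℝ)) atTop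
      (𝓝 (turanDensity k m)) := (tendsto_add_atTop_iff_nat k).2 (ratio_tendsto k m)
  have h1 := hanti.le_of_tendsto htend (n - k)
  have e : n - k + k = n := by omega
  simp only [e] at h1
  have hp : (0 : ℝ) < (n.choose k : ℝ) := by exact_mod_cast Nat.choose_pos hk
  rwa [le_div_iff₀ hp] at h1

theorem TD_tau (R t : ℕ) : TD R t (tau R t) := by
  classical
  intro n
  by_cases hn : t ≤ n
  · obtain ⟨G, hG1, hG2, hG3⟩ := exists_ex (n := n) (k := t) (m := t + R) (by omega)
    refine ⟨(powersetCard t univ) \ G, ⟨?_, ?_⟩, ?_⟩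
    · intro Z hZ
      exact ⟨subset_univ _, (mem_powersetCard.1 (mem_sdiff.1 hZ).1).2⟩
    · intro Y _ hY
      by_contra hcon
      push Not at hcon
      apply hG2
      refine ⟨Y, hY, ?_⟩
      intro Z hZ
      by_contra hZG
      exact hcon Z (mem_sdiff.2 ⟨mem_powersetCard.2 ⟨subset_univ _, (mem_powersetCard.1 hZ).2⟩, hZG⟩)
        (mem_powersetCard.1 hZ).1
    · have hsub : G ⊆ powersetCard t (univ : Finset (Fin n)) := fun A hA =>
        mem_powersetCard.2 ⟨subset_univ _, hG1 A hA⟩
      have h1 : ((powersetCard t (univ : Finset (Fin n)) \ G).card : ℝ) =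
          (n.choose t : ℝ) - (ex n t (t + R) : ℝ) := by
        have h2 := card_sdiff_add_card_eq_card hsub
        rw [card_powersetCard, card_univ, Fintype.card_fin, hG3] at h2
        have h3 : ((powersetCard t (univ : Finset (Fin n)) \ G).card : ℝ) +
          (ex n t (t + R) : ℝ) = (n.choose t : ℝ) := by exact_mod_cast h2
        linarith
      rw [h1]
      have h4 := density_mul_le (n := n) (k := t) (m := t + R) hn
      unfold tau
      linarith
  · refine ⟨∅, ⟨?_, ?_⟩, ?_⟩
    · intro Z hZ; exact absurd hZ (notMem_empty _)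
    · intro Y _ hY
      exfalso
      have := card_le_univ Y
      rw [Fintype.card_fin] at this
      omega
    · rw [card_empty, Nat.choose_eq_zero_of_lt (by omega)]
      simp

theorem tau_le {R t : ℕ} {c : ℝ} (h : TD R t c) : tau R t ≤ c := by
  have h1 : 1 - c ≤ turanDensity t (t + R) := by
    apply le_density
    intro n
    obtain ⟨F, ⟨hF1, hF2⟩, hF3⟩ := h n
    have hcov := ex_ge_of_cover (k := t) (m := t + R) F (by
      intro X hX
      obtain ⟨Z, hZ, hZX⟩ := hF2 X (subset_univ _) hX
      exact ⟨Z, hZ, (hF1 Z hZ).2, hZX⟩)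
    have h4 : (n.choose t : ℝ) ≤ ex n t (t + R) + F.card := by
      exact_mod_cast hcov
    linarith
  unfold tau
  linarith

theorem tau_le_one (R t : ℕ) : tau R t ≤ 1 := tau_le (TD.trivial R t)

theorem tau_nonneg (R t : ℕ) : 0 ≤ tau R t := by
  unfold tau
  have h := ratio_tendsto t (t + R)
  have h1 : turanDensity t (t + R) ≤ 1 := by
    refine le_of_tendsto h (Eventually.of_forall fun n => ?_)
    have h2 : (ex n t (t + R) : ℝ) ≤ (n.choose t : ℝ) := by
      obtain ⟨G, hG1, -, hG3⟩ := exists_ex (n := n) (k := t) (m := t + R) (by omega)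
      have hsub : G ⊆ powersetCard t (univ : Finset (Fin n)) := fun A hA =>
        mem_powersetCard.2 ⟨subset_univ _, hG1 A hA⟩
      have h3 := card_le_card hsub
      rw [card_powersetCard, card_univ, Fintype.card_fin, hG3] at h3
      exact_mod_cast h3
    exact div_le_one_of_le₀ h2 (Nat.cast_nonneg _)
  linarith

/-- the normalised constant -/
noncomputable def GG (R t : ℕ) : ℝ := ((t + R).choose R : ℝ) * tau R t

theorem GG_nonneg (R t : ℕ) : 0 ≤ GG R t := mul_nonneg (Nat.cast_nonneg _) (tau_nonneg R t)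

/-- de Caen's bound -/
theorem one_le_GG {R t : ℕ} (hR : 1 ≤ R) (ht : 3 ≤ t) : 1 ≤ GG R t := by
  have h1 := (Pool.Agent.TH440.DC.main (r := t) (k := t + R) ht (by omega)).1
  have hD : Pool.Agent.TH440.DC.DD t (t + R) = 1 / ((t + R - 1).choose (t - 1) : ℝ) := rfl
  have hpos := (Pool.Agent.TH440.DC.DD_facts (r := t) (k := t + R) ht (by omega)).1
  have h2 : Pool.Agent.TH440.DC.DD t (t + R) ≤ tau R t := by
    unfold tau
    have : 0 ≤ Pool.Agent.TH440.DC.DD t (t + R) ^ 3 / 40 := by positivity
    linarith
  have h3 : (t + R - 1).choose (t - 1) ≤ (t + R).choose R := by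
    have e1 : (t + R).choose R = (t + R).choose t := (Nat.choose_symm_add).symm
    rw [e1]
    have e2 : t + R = (t + R - 1) + 1 := by omega
    have e3 : t = (t - 1) + 1 := by omega
    calc (t + R - 1).choose (t - 1) ≤ (t + R - 1 + 1).choose (t - 1 + 1) := by
          rw [Nat.choose_succ_succ]; omega
      _ = (t + R).choose t := by rw [← e2, ← e3]
  have h4 : (0 : ℝ) < ((t + R - 1).choose (t - 1) : ℝ) := by
    exact_mod_cast Nat.choose_pos (by omega)
  have h5 : ((t + R - 1).choose (t - 1) : ℝ) ≤ ((t + R).choose R : ℝ) := by exact_mod_cast h3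
  unfold GG
  rw [hD] at h2
  calc (1 : ℝ) = ((t + R - 1).choose (t - 1) : ℝ) * (1 / ((t + R - 1).choose (t - 1) : ℝ)) := by
        field_simp
    _ ≤ ((t + R).choose R : ℝ) * tau R t := by
        apply mul_le_mul h5 h2 (by positivity) (by positivity)

end Run7.h538.LC
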