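import Pool.Agent.Run7.h538.LC.Semi

/-!
# The limit exists for every gap
-/

set_option autoImplicit false
set_option maxHeartbeats 1000000

open Finset Filter Topology

namespace Run7.h538.LC

open Pool.Agent.H613T Pool.Agent.W724.TG

theorem GG_le_of_GR {R k : ℕ} {T : ℝ} (h : GR R k T) : GG R k ≤ T := by
  have h1 := tau_le h
  have h2 : (0 : ℝ) < ((k + R).choose R : ℝ) := by exact_mod_cast Nat.choose_pos (by omega)
  unfold GG
  rw [le_div_iff₀ h2] at h1
  linarith

theorem exists_limit {R : ℕ} (hR : 1 ≤ R) : ∃ L : ℝ, Tendsto (GG R) atTop (𝓝 L) := by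
  have hb1 : IsBoundedUnder (· ≤ ·) atTop (GG R) := by
    obtain ⟨j, hj⟩ := (semi hR one_pos).exists
    exact ⟨_, hj⟩
  have hb2 : IsBoundedUnder (· ≥ ·) atTop (GG R) := isBoundedUnder_of ⟨0, fun k => GG_nonneg R k⟩
  set L := liminf (GG R) atTop with hL
  refine ⟨L, tendsto_of_le_liminf_of_limsup_le le_rfl ?_ hb1 hb2⟩
  have key : ∀ ε : ℝ, 0 < ε → limsup (GG R) atTop ≤ (1 + ε) * (L + ε) + ε := by
    intro ε hε
    have h1 : ∃ᶠ j in atTop, GG R j < L + ε :=
      frequently_lt_of_liminf_lt hb1.isCoboundedUnder_ge (by linarith)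
    obtain ⟨j, hj1, hj2⟩ := (h1.and_eventually (semi hR hε)).exists
    refine limsup_le_of_le hb2.isCoboundedUnder_le ?_
    filter_upwards [hj2] with k hk
    refine hk.trans ?_
    have : (1 + ε) * GG R j ≤ (1 + ε) * (L + ε) :=
      mul_le_mul_of_nonneg_left hj1.le (by linarith)
    linarith
  have hc : Tendsto (fun ε : ℝ => (1 + ε) * (L + ε) + ε) (𝓝[>] 0) (𝓝 ((1 + 0) * (L + 0) + 0)) :=
    (Continuous.tendsto (by fun_prop) 0).mono_left nhdsWithin_le_nhds
  have h2 := ge_of_tendsto hc (by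
    filter_upwards [self_mem_nhdsWithin] with ε hε
    exact key ε hε)
  simpa using h2

theorem limit_bounds {R : ℕ} (hR : 1 ≤ R) {L : ℝ} (hL : Tendsto (GG R) atTop (𝓝 L)) :
    1 ≤ L ∧ ∀ x : ℝ, 1 < x → L ≤ (Real.log x + 1 - 1 / x) /
      (1 - Real.exp (-((Real.log x + x - 1) / ((R : ℝ) + 1)))) ^ (R + 1) := by
  constructor
  · refine ge_of_tendsto hL ?_
    filter_upwards [eventually_ge_atTop 3] with t ht
    exact one_le_GG hR ht
  · intro x hx
    refine le_of_forall_pos_le_add fun ε hε => ?_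
    obtain ⟨K, hK⟩ := Pool.Agent.TH527.LG.main_x (R := R) hR (x := x) hx
      (T := (Real.log x + 1 - 1 / x) /
      (1 - Real.exp (-((Real.log x + x - 1) / ((R : ℝ) + 1)))) ^ (R + 1) + ε) (by linarith)
    refine le_of_tendsto hL ?_
    filter_upwards [eventually_ge_atTop K] with k hk
    exact GG_le_of_GR (hK k hk)

end Run7.h538.LC
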