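import Pool.Agent.Run7.h538.LC.Phi

/-!
# The limit for gap one is at most 1.919
-/

set_option autoImplicit false
set_option maxHeartbeats 1000000

open Finset Filter Topology

namespace Run7.h538.LC

open Pool.Agent.H613T Pool.Agent.H369R2.TD

/-- the table -/
noncomputable def gc (j : ℕ) : ℝ := (Pool.Agent.TH485.Uni.g j : ℝ) / 100000

theorem c0_le_gc (j : ℕ) : c0 j ≤ gc j := by
  rcases j with _ | m
  · rw [c0_zero]; unfold gc; positivity
  · rw [c0_succ]
    have h1 := tau_le_of_tur (Pool.Agent.TH485.Uni.tur_dn m)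
    have h3 : (0 : ℝ) < (m : ℝ) + 1 := by positivity
    calc ((m : ℝ) + 1) * tau 1 m ≤ ((m : ℝ) + 1) * Pool.Agent.TH485.Uni.dn m :=
          mul_le_mul_of_nonneg_left h1 h3.le
      _ = gc (m + 1) := by
          unfold Pool.Agent.TH485.Uni.dn gc
          field_simp

/-- `S(l)` is at most its truncation -/
theorem S_le {l : ℝ} (hl : 0 ≤ l) (J : ℕ) :
    S l ≤ 2.63 + Real.exp (-l) * ∑ j ∈ range J, (gc j - 2.63) * (l ^ j / (j.factorial : ℝ)) := by
  have hE : Real.exp (-l) * Real.exp l = 1 := by rw [← Real.exp_add]; simp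
  have h1 := (hasSum_c0 hl).mul_left (Real.exp (-l))
  rw [← mul_assoc, hE, one_mul] at h1
  have h2 := ((hasSum_pow l).mul_left (Real.exp (-l))).mul_left 2.63
  rw [hE, mul_one] at h2
  have h3 : HasSum (fun j : ℕ => if j < J then
      Real.exp (-l) * ((gc j - 2.63) * (l ^ j / (j.factorial : ℝ))) else 0)
      (∑ j ∈ range J, Real.exp (-l) * ((gc j - 2.63) * (l ^ j / (j.factorial : ℝ)))) := by
    have h4 : HasSum (fun j : ℕ => if j < J then
      Real.exp (-l) * ((gc j - 2.63) * (l ^ j / (j.factorial : ℝ))) else 0)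
      (∑ j ∈ range J, (if j < J then
      Real.exp (-l) * ((gc j - 2.63) * (l ^ j / (j.factorial : ℝ))) else 0)) := by
      refine hasSum_sum_of_ne_finset_zero (fun j hj => ?_)
      rw [mem_range] at hj
      rw [if_neg hj]
    have h5 : ∑ j ∈ range J, (if j < J then
      Real.exp (-l) * ((gc j - 2.63) * (l ^ j / (j.factorial : ℝ))) else 0) =
      ∑ j ∈ range J, Real.exp (-l) * ((gc j - 2.63) * (l ^ j / (j.factorial : ℝ))) :=
      sum_congr rfl fun j hj => by rw [if_pos (mem_range.1 hj)]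
    rw [h5] at h4
    exact h4
  rw [← mul_sum] at h3
  refine hasSum_le (fun j => ?_) h1 (h2.add h3)
  have hp : 0 ≤ Real.exp (-l) * (l ^ j / (j.factorial : ℝ)) := by positivity
  by_cases hj : j < J
  · simp only [hj, if_true]
    have := c0_le_gc j
    nlinarith
  · simp only [hj, if_false]
    have := c0_le j
    nlinarith

theorem exp_up : Real.exp (137 / 20) < 943882 / 1000 := by
  have h1 : Real.exp (137 / 20) ^ 20 = Real.exp 1 ^ 137 := by
    rw [← Real.exp_nat_mul, ← Real.exp_nat_mul]; norm_num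
  have h2 := Real.exp_one_lt_d9
  refine lt_of_pow_lt_pow_left₀ 20 (by norm_num) ?_
  rw [h1]
  calc Real.exp 1 ^ 137 < 2.7182818286 ^ 137 := by gcongr
    _ < _ := by norm_num

theorem exp_lo : 9438 / 10 < Real.exp (137 / 20) := by
  have h1 : Real.exp (137 / 20) ^ 20 = Real.exp 1 ^ 137 := by
    rw [← Real.exp_nat_mul, ← Real.exp_nat_mul]; norm_num
  have h2 := Real.exp_one_gt_d9
  refine lt_of_pow_lt_pow_left₀ 20 (Real.exp_pos _).le ?_
  rw [h1]
  calc (9438 / 10 : ℝ) ^ 20 < 2.7182818283 ^ 137 := by norm_num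
    _ < _ := by gcongr

theorem Phi_num : Phi (137 / 20) ≤ 1919 / 1000 := by
  have hS := S_le (l := 137 / 20) (by norm_num) 24
  have hlow : (1000 : ℝ) / 943882 ≤ Real.exp (-(137 / 20)) := by
    rw [Real.exp_neg, ← one_div, div_le_div_iff₀ (by norm_num) (Real.exp_pos _)]
    have := exp_up
    linarith
  have hsum : ∑ j ∈ range 24, (gc j - 2.63) * ((137 / 20 : ℝ) ^ j / (j.factorial : ℝ)) ≤
      - (78613 / 100) := by
    simp only [Finset.sum_range_succ, Finset.sum_range_zero, gc, Pool.Agent.TH485.Uni.g,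
      Pool.Agent.TH485.Uni.cN, List.getD_cons_zero, List.getD_cons_succ]
    norm_num [Nat.factorial]
  have hS2 : S (137 / 20) ≤ 1.7972 := by
    have h3 : Real.exp (-(137 / 20)) * ∑ j ∈ range 24, (gc j - 2.63) * ((137 / 20 : ℝ) ^ j / (j.factorial : ℝ))
        ≤ (1000 : ℝ) / 943882 * (- (78613 / 100)) := by
      nlinarith
    have h4 : (2.63 : ℝ) + (1000 : ℝ) / 943882 * (- (78613 / 100)) ≤ 1.7972 := by norm_num
    linarith
  have hs1 : Real.exp (-(137 / 20 / 2)) ≤ 3256 / 100000 := by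
    have h1 : Real.exp (-(137 / 20 / 2)) ^ 2 = (Real.exp (137 / 20))⁻¹ := by
      rw [← Real.exp_nat_mul, ← Real.exp_neg]; norm_num
    have h2 := exp_lo
    refine (lt_of_pow_lt_pow_left₀ 2 (by norm_num) ?_).le
    rw [h1]
    calc (Real.exp (137 / 20))⁻¹ < (9438 / 10 : ℝ)⁻¹ := by gcongr
      _ < _ := by norm_num
  have hs0 := Real.exp_pos (-(137 / 20 / 2))
  have hS0 := S_nonneg (l := 137 / 20) (by norm_num)
  unfold Phi
  set s := Real.exp (-(137 / 20 / 2)) with hs
  have hd : 0 < 1 - s := by linarith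
  rw [div_mul_eq_mul_div, div_le_iff₀ hd]
  nlinarith

end Run7.h538.LC
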