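import Pool.Agent.Run7.h538.LC.Lim
import Pool.Agent.H369R2.TD.Asy
import Pool.Agent.H369R2.TD.Link
import Pool.Agent.TH485.Uni.Main

/-!
# A formula for the limit in the case of gap one
-/

set_option autoImplicit false
set_option maxHeartbeats 1000000

open Finset Filter Topology

namespace Run7.h538.LC

open Pool.Agent.H613T Pool.Agent.H369R2.TD

theorem tur_tau (m : ℕ) : Tur m (tau 1 m) := by
  intro n
  obtain ⟨F, ⟨h1, h2⟩, h3⟩ := TD_tau 1 m n
  exact ⟨F, fun Z hZ => (h1 Z hZ).2, fun Y hY => h2 Y (subset_univ _) hY, h3⟩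

theorem tau_le_of_tur {m : ℕ} {c : ℝ} (h : Tur m c) : tau 1 m ≤ c := by
  refine tau_le (R := 1) fun n => ?_
  obtain ⟨F, h1, h2, h3⟩ := h n
  exact ⟨F, ⟨fun Z hZ => ⟨subset_univ _, h1 Z hZ⟩, fun Y _ hY => h2 Y hY⟩, h3⟩

theorem GG_one (m : ℕ) : GG 1 m = ((m : ℝ) + 1) * tau 1 m := by
  unfold GG
  rw [Nat.choose_one_right]
  push_cast
  ring

theorem g_le_K (j : ℕ) : Pool.Agent.TH485.Uni.g j ≤ 263000 := by
  by_cases hj : j < 64
  · revert j
    decide
  · rw [Pool.Agent.TH485.Uni.g_big (by omega)]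
    norm_num

theorem GG_one_le (m : ℕ) : GG 1 m ≤ 2.63 := by
  rw [GG_one]
  have h1 := tau_le_of_tur (Pool.Agent.TH485.Uni.tur_dn m)
  have h2 : (Pool.Agent.TH485.Uni.g (m + 1) : ℝ) ≤ 263000 := by exact_mod_cast g_le_K (m + 1)
  have h3 : (0 : ℝ) < (m : ℝ) + 1 := by positivity
  calc ((m : ℝ) + 1) * tau 1 m ≤ ((m : ℝ) + 1) * Pool.Agent.TH485.Uni.dn m :=
        mul_le_mul_of_nonneg_left h1 h3.le
    _ = (Pool.Agent.TH485.Uni.g (m + 1) : ℝ) / 100000 := by
        unfold Pool.Agent.TH485.Uni.dn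
        field_simp
    _ ≤ 2.63 := by
        rw [div_le_iff₀ (by norm_num)]
        linarith

/-- `l E[τ_N]` for `N` Poisson with mean `l` -/
noncomputable def S (l : ℝ) : ℝ :=
  l * ∑' j : ℕ, Real.exp (-l) * l ^ j / (j.factorial : ℝ) * tau 1 j

noncomputable def Phi (l : ℝ) : ℝ :=
  (1 + Real.exp (-(l / 2))) / (1 - Real.exp (-(l / 2))) * S l

/-- the sequence `j τ_{j-1}` -/
noncomputable def c0 (j : ℕ) : ℝ := (j : ℝ) * tau 1 (j - 1)

theorem c0_zero : c0 0 = 0 := by unfold c0; simp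

theorem c0_succ (m : ℕ) : c0 (m + 1) = ((m : ℝ) + 1) * tau 1 m := by
  unfold c0
  push_cast
  rfl

theorem c0_nonneg (j : ℕ) : 0 ≤ c0 j := mul_nonneg (Nat.cast_nonneg _) (tau_nonneg 1 _)

theorem c0_le (j : ℕ) : c0 j ≤ 2.63 := by
  rcases j with _ | m
  · rw [c0_zero]; norm_num
  · rw [c0_succ, ← GG_one]
    exact GG_one_le m

theorem hasSum_pow (l : ℝ) : HasSum (fun j : ℕ => l ^ j / (j.factorial : ℝ)) (Real.exp l) := by
  rw [Real.exp_eq_exp_ℝ]
  exact NormedSpace.expSeries_div_hasSum_exp l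

theorem summable_tau {l : ℝ} (hl : 0 ≤ l) :
    Summable (fun j : ℕ => l ^ j / (j.factorial : ℝ) * tau 1 j) := by
  refine Summable.of_nonneg_of_le (fun j => ?_) (fun j => ?_) (hasSum_pow l).summable
  · have := tau_nonneg 1 j
    positivity
  · have h1 := tau_le_one 1 j
    have h2 : 0 ≤ l ^ j / (j.factorial : ℝ) := by positivity
    nlinarith

theorem S_eq (l : ℝ) :
    S l = Real.exp (-l) * (l * ∑' j : ℕ, l ^ j / (j.factorial : ℝ) * tau 1 j) := by
  unfold S
  have h1 : ∀ j : ℕ, Real.exp (-l) * l ^ j / (j.factorial : ℝ) * tau 1 j =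
      Real.exp (-l) * (l ^ j / (j.factorial : ℝ) * tau 1 j) := fun j => by ring
  simp only [h1]
  rw [tsum_mul_left]
  ring

theorem hasSum_c0 {l : ℝ} (hl : 0 ≤ l) :
    HasSum (fun j : ℕ => l ^ j / (j.factorial : ℝ) * c0 j) (Real.exp l * S l) := by
  have h1 := (summable_tau hl).hasSum.mul_left l
  have e1 : Real.exp l * S l = l * ∑' j : ℕ, l ^ j / (j.factorial : ℝ) * tau 1 j := by
    rw [S_eq, ← mul_assoc, ← Real.exp_add, add_neg_cancel, Real.exp_zero, one_mul]
  rw [e1, ← hasSum_nat_add_iff' 1]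
  simp only [range_one, sum_singleton, c0_zero, mul_zero, sub_zero]
  have h4 : (fun j : ℕ => l ^ (j + 1) / ((j + 1).factorial : ℝ) * c0 (j + 1)) =
      fun j : ℕ => l * (l ^ j / (j.factorial : ℝ) * tau 1 j) := by
    funext j
    rw [c0_succ, Nat.factorial_succ]
    push_cast
    have h2 : ((j : ℝ) + 1) ≠ 0 := by positivity
    have h3 : (j.factorial : ℝ) ≠ 0 := by positivity
    field_simp
    ring
  rw [h4]
  exact h1

theorem psi_tendsto {l : ℝ} (hl : 0 ≤ l) (K : ℝ) :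
    Tendsto (fun J : ℕ => Real.exp (-l) * Psi J c0 K l) atTop (𝓝 (S l)) := by
  have h1 := (hasSum_c0 hl).tendsto_sum_nat
  have h2 := (hasSum_pow l).tendsto_sum_nat
  have h3 : Tendsto (fun J : ℕ => Real.exp (-l) * ((∑ j ∈ range J, l ^ j / (j.factorial : ℝ) * c0 j -
      K * ∑ j ∈ range J, l ^ j / (j.factorial : ℝ)) + K * Real.exp l)) atTop
      (𝓝 (Real.exp (-l) * ((Real.exp l * S l - K * Real.exp l) + K * Real.exp l))) :=
    (((h1.sub (h2.const_mul K)).add_const _).const_mul _)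
  have e : Real.exp (-l) * ((Real.exp l * S l - K * Real.exp l) + K * Real.exp l) = S l := by
    have : Real.exp (-l) * Real.exp l = 1 := by rw [← Real.exp_add]; simp
    calc _ = (Real.exp (-l) * Real.exp l) * S l := by ring
      _ = S l := by rw [this, one_mul]
  rw [e] at h3
  refine h3.congr fun J => ?_
  unfold Psi
  rw [mul_sum, ← sum_sub_distrib]
  congr 2
  refine sum_congr rfl fun j _ => ?_
  ring

theorem S_nonneg {l : ℝ} (hl : 0 ≤ l) : 0 ≤ S l := by
  unfold S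
  refine mul_nonneg hl (tsum_nonneg fun j => ?_)
  have := tau_nonneg 1 j
  positivity

/-- the limit is at most `Φ(l)` for every `l > 0` -/
theorem le_Phi {L : ℝ} (hL : Tendsto (GG 1) atTop (𝓝 L)) {l : ℝ} (hl : 0 < l) : L ≤ Phi l := by
  set s : ℝ := Real.exp (-(l / 2)) with hs
  have hs0 : 0 < s := Real.exp_pos _
  have hs1 : s < 1 := Real.exp_lt_one_iff.2 (by linarith)
  have hP : Real.exp (-l) = s ^ 2 := by
    rw [hs, ← Real.exp_nat_mul]; congr 1; push_cast; ring
  refine le_of_forall_pos_lt_add fun ε hε => ?_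
  -- the constant `D`
  obtain ⟨D, hD1, hD2⟩ : ∃ D, S l < D ∧ (1 + s) / (1 - s) * D < Phi l + ε := by
    have hq : 0 < (1 + s) / (1 - s) := div_pos (by linarith) (by linarith)
    refine ⟨S l + ε / 2 / ((1 + s) / (1 - s)), by
      have : 0 < ε / 2 / ((1 + s) / (1 - s)) := by positivity
      linarith, ?_⟩
    have h1 : (1 + s) / (1 - s) * (S l + ε / 2 / ((1 + s) / (1 - s))) = Phi l + ε / 2 := by
      have hq' : (1 + s) / (1 - s) ≠ 0 := hq.ne'
      unfold Phi
      rw [← hs, mul_add, mul_div_cancel₀ _ hq']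
    rw [h1]; linarith
  obtain ⟨J, hJ1, hJ2⟩ : ∃ J : ℕ, 1 ≤ J ∧ Real.exp (-l) * Psi J c0 2.63 l < D := by
    have := ((psi_tendsto hl.le 2.63).eventually_lt_const hD1).and (eventually_ge_atTop 1)
    obtain ⟨J, h1, h2⟩ := this.exists
    exact ⟨J, h2, h1⟩
  obtain ⟨x, hx1, hx2⟩ : ∃ x : ℝ, l < x ∧ Real.exp (-l) * Psi J c0 2.63 x < D := by
    have hc : Tendsto (fun x : ℝ => Real.exp (-l) * Psi J c0 2.63 x) (𝓝[>] l)
        (𝓝 (Real.exp (-l) * Psi J c0 2.63 l)) := by
      refine (Continuous.tendsto ?_ l).mono_left nhdsWithin_le_nhds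
      unfold Psi
      fun_prop
    obtain ⟨x, h1, h2⟩ := ((hc.eventually_lt_const hJ2).and self_mem_nhdsWithin).exists
    exact ⟨x, h2, h1⟩
  have hD0 : 0 < D := lt_of_le_of_lt (S_nonneg hl.le) hD1
  set lam : ℝ := 1 / (1 + s) with hlam
  have hlam0 : 0 < lam := by rw [hlam]; positivity
  have hlam1 : lam < 1 := by
    rw [hlam, div_lt_one (by linarith)]; linarith
  have hs2 : s ^ 2 < 1 := by nlinarith
  have hV : D / (lam * (1 - s ^ 2)) + D * s ^ 2 / ((1 - lam) * (1 - s ^ 2)) < Phi l + ε := by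
    have e : D / (lam * (1 - s ^ 2)) + D * s ^ 2 / ((1 - lam) * (1 - s ^ 2)) =
        (1 + s) / (1 - s) * D := by
      have h1 : (1 : ℝ) - s ≠ 0 := by linarith
      have h2 : (1 : ℝ) + s ≠ 0 := by linarith
      have h3 : (1 : ℝ) - s ^ 2 = (1 - s) * (1 + s) := by ring
      have h4 : 1 - lam = s / (1 + s) := by rw [hlam]; field_simp; ring
      rw [h4, h3, hlam]
      field_simp
    rw [e]; exact hD2
  obtain ⟨V, hV1, hV2⟩ : ∃ V, D / (lam * (1 - s ^ 2)) + D * s ^ 2 / ((1 - lam) * (1 - s ^ 2)) < V ∧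
      V < Phi l + ε := exists_between hV
  have hev := asymptotic (δ := tau 1) (c := c0) (J := J) (K := 2.63) tur_tau (tau_nonneg 1) c0_zero
    (fun m _ => (c0_succ m).ge) (fun m => by rw [← GG_one]; exact GG_one_le m) hJ1
    hl hx1 hl hx1 hlam0 hlam1 hx2.le hx2.le (P₁ := s ^ 2) (P₂ := s ^ 2) hP.le hs2 hP.le hs2 hV1
  refine lt_of_le_of_lt (le_of_tendsto hL ?_) hV2
  filter_upwards [hev] with r hr
  have h1 := tau_le_of_tur hr
  have h2 : (0 : ℝ) < (r : ℝ) + 1 := by positivity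
  rw [GG_one]
  rw [le_div_iff₀ h2] at h1
  linarith

theorem sum_low_tendsto (J : ℕ) :
    Tendsto (fun l : ℝ => Real.exp (-l) * ∑ j ∈ range J, l ^ j / (j.factorial : ℝ)) atTop (𝓝 0) := by
  have h : ∀ j ∈ range J, Tendsto (fun l : ℝ => Real.exp (-l) * (l ^ j / (j.factorial : ℝ))) atTop
      (𝓝 0) := by
    intro j _
    have h1 := (Real.tendsto_pow_mul_exp_neg_atTop_nhds_zero j).div_const (j.factorial : ℝ)
    rw [zero_div] at h1
    refine h1.congr fun l => ?_
    ring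
  have h2 := tendsto_finsetSum _ h
  simp only [sum_const_zero] at h2
  refine h2.congr fun l => ?_
  rw [mul_sum]

/-- `S(l)` converges to the limit as well -/
theorem S_tendsto {L : ℝ} (hL : Tendsto (GG 1) atTop (𝓝 L)) : Tendsto S atTop (𝓝 L) := by
  have hc : Tendsto c0 atTop (𝓝 L) := by
    rw [← tendsto_add_atTop_iff_nat 1]
    refine hL.congr fun m => ?_
    rw [c0_succ, GG_one]
  have hL0 : 0 ≤ L := ge_of_tendsto hL (Eventually.of_forall fun k => GG_nonneg 1 k)
  have hL1 : L ≤ 2.63 := le_of_tendsto hL (Eventually.of_forall fun k => GG_one_le k)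
  rw [Metric.tendsto_atTop]
  intro ε hε
  obtain ⟨J, hJ⟩ := (Metric.tendsto_atTop.1 hc) (ε / 2) (by linarith)
  have hlow := (sum_low_tendsto J).const_mul 2.63
  rw [mul_zero] at hlow
  obtain ⟨N, hN⟩ := eventually_atTop.1 (hlow.eventually_lt_const (show (0 : ℝ) < ε / 2 by linarith))
  refine ⟨max N 1, fun l hl => ?_⟩
  have hlN := hN l ((le_max_left _ _).trans hl)
  have hl1 : 1 ≤ l := (le_max_right _ _).trans hl
  have hl0 : 0 ≤ l := by linarith
  have hs1 := (hasSum_c0 hl0).mul_left (Real.exp (-l))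
  have hs2 := ((hasSum_pow l).mul_left (Real.exp (-l))).mul_left L
  have hE : Real.exp (-l) * Real.exp l = 1 := by rw [← Real.exp_add]; simp
  rw [← mul_assoc, hE, one_mul] at hs1
  rw [hE, mul_one] at hs2
  have hs3 := hs1.sub hs2
  -- the absolute bound
  have hs4 : HasSum (fun j : ℕ => Real.exp (-l) * ((if j < J then 2.63 else 0) *
      (l ^ j / (j.factorial : ℝ))) + ε / 2 * (Real.exp (-l) * (l ^ j / (j.factorial : ℝ))))
      (2.63 * (Real.exp (-l) * ∑ j ∈ range J, l ^ j / (j.factorial : ℝ)) + ε / 2) := by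
    have h1 : HasSum (fun j : ℕ => Real.exp (-l) * ((if j < J then (2.63 : ℝ) else 0) *
      (l ^ j / (j.factorial : ℝ)))) (∑ j ∈ range J, Real.exp (-l) * ((if j < J then (2.63 : ℝ) else 0) *
      (l ^ j / (j.factorial : ℝ)))) := by
      refine hasSum_sum_of_ne_finset_zero fun j hj => ?_
      rw [mem_range] at hj
      rw [if_neg hj, zero_mul, mul_zero]
    have h2 : ∑ j ∈ range J, Real.exp (-l) * ((if j < J then (2.63 : ℝ) else 0) *
      (l ^ j / (j.factorial : ℝ))) =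
      2.63 * (Real.exp (-l) * ∑ j ∈ range J, l ^ j / (j.factorial : ℝ)) := by
      rw [mul_sum, mul_sum]
      refine sum_congr rfl fun j hj => ?_
      rw [mem_range] at hj
      rw [if_pos hj]
      ring
    rw [h2] at h1
    have h3 := ((hasSum_pow l).mul_left (Real.exp (-l))).mul_left (ε / 2)
    rw [hE, mul_one] at h3
    exact h1.add h3
  have hb : ∀ j : ℕ, ‖Real.exp (-l) * (l ^ j / (j.factorial : ℝ) * c0 j) -
      L * (Real.exp (-l) * (l ^ j / (j.factorial : ℝ)))‖ ≤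
      Real.exp (-l) * ((if j < J then 2.63 else 0) *
      (l ^ j / (j.factorial : ℝ))) + ε / 2 * (Real.exp (-l) * (l ^ j / (j.factorial : ℝ))) := by
    intro j
    have hp : 0 ≤ Real.exp (-l) * (l ^ j / (j.factorial : ℝ)) := by positivity
    have e1 : Real.exp (-l) * (l ^ j / (j.factorial : ℝ) * c0 j) -
      L * (Real.exp (-l) * (l ^ j / (j.factorial : ℝ))) =
      (c0 j - L) * (Real.exp (-l) * (l ^ j / (j.factorial : ℝ))) := by ring
    have e2 : Real.exp (-l) * ((if j < J then 2.63 else 0) *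
      (l ^ j / (j.factorial : ℝ))) + ε / 2 * (Real.exp (-l) * (l ^ j / (j.factorial : ℝ))) =
      ((if j < J then 2.63 else 0) + ε / 2) * (Real.exp (-l) * (l ^ j / (j.factorial : ℝ))) := by
      ring
    rw [e1, e2, norm_mul, Real.norm_eq_abs, Real.norm_of_nonneg hp]
    refine mul_le_mul_of_nonneg_right ?_ hp
    by_cases hj : j < J
    · rw [if_pos hj, abs_le]
      have := c0_nonneg j
      have := c0_le j
      constructor <;> linarith
    · rw [if_neg hj, zero_add]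
      have := hJ j (by omega)
      rw [Real.dist_eq] at this
      exact this.le
  have hfin := hs3.norm_le_of_bounded hs4 hb
  rw [Real.dist_eq]
  rw [Real.norm_eq_abs] at hfin
  linarith

theorem Phi_tendsto {L : ℝ} (hL : Tendsto (GG 1) atTop (𝓝 L)) : Tendsto Phi atTop (𝓝 L) := by
  have h1 : Tendsto (fun l : ℝ => Real.exp (-(l / 2))) atTop (𝓝 0) :=
    Real.tendsto_exp_neg_atTop_nhds_zero.comp (tendsto_id.atTop_div_const (by norm_num))
  have h2 : Tendsto Phi atTop (𝓝 ((1 + 0) / (1 - 0) * L)) :=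
    ((h1.const_add 1).div (h1.const_sub 1) (by norm_num)).mul (S_tendsto hL)
  simpa using h2

end Run7.h538.LC
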