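import Pool.Agent.Run7.h538.LC.Basic
import Pool.Agent.W724.TG2.Main
import Pool.Agent.TH527.LG.Main

/-!
# The constants at one size bound the constants at all large sizes
-/

set_option autoImplicit false
set_option maxHeartbeats 1000000

open Finset Filter Topology

namespace Run7.h538.LC

open Pool.Agent.H613T Pool.Agent.W724.TG

/-- lower tail of the Poisson distribution with mean `(1 + β) j` -/
theorem poisson_low {β : ℝ} (hβ : 0 < β) (j : ℕ) :
    Real.exp (-((1 + β) * j)) * ∑ i ∈ range j, ((1 + β) * j) ^ i / (i.factorial : ℝ) ≤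
      Real.exp (-(β - Real.log (1 + β)) * j) := by
  have h1 : ∑ i ∈ range j, ((1 + β) * j) ^ i / (i.factorial : ℝ) ≤
      (1 + β) ^ j * Real.exp j := by
    calc ∑ i ∈ range j, ((1 + β) * j) ^ i / (i.factorial : ℝ)
        ≤ ∑ i ∈ range j, (1 + β) ^ j * ((j : ℝ) ^ i / (i.factorial : ℝ)) := by
          refine sum_le_sum fun i hi => ?_
          rw [mem_range] at hi
          rw [mul_pow, mul_div_assoc]
          refine mul_le_mul_of_nonneg_right ?_ (by positivity)
          exact pow_le_pow_right₀ (by linarith) hi.le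
      _ = (1 + β) ^ j * ∑ i ∈ range j, ((j : ℝ) ^ i / (i.factorial : ℝ)) := by rw [mul_sum]
      _ ≤ (1 + β) ^ j * Real.exp j := by
          refine mul_le_mul_of_nonneg_left ?_ (by positivity)
          exact Real.sum_le_exp_of_nonneg (Nat.cast_nonneg j) j
  have h2 : (1 + β) ^ j = Real.exp (Real.log (1 + β) * j) := by
    rw [mul_comm, Real.exp_nat_mul, Real.exp_log (by linarith)]
  calc Real.exp (-((1 + β) * j)) * ∑ i ∈ range j, ((1 + β) * j) ^ i / (i.factorial : ℝ)
      ≤ Real.exp (-((1 + β) * j)) * ((1 + β) ^ j * Real.exp j) :=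
        mul_le_mul_of_nonneg_left h1 (Real.exp_pos _).le
    _ = Real.exp (-(β - Real.log (1 + β)) * j) := by
        rw [h2, ← Real.exp_add, ← Real.exp_add]
        congr 1
        ring

theorem tendsto_poly_exp (m : ℕ) {A c : ℝ} (hA : 0 ≤ A) (hc : 0 < c) :
    Tendsto (fun j : ℕ => (1 + A * (j : ℝ)) ^ m * Real.exp (-(c * (j : ℝ)))) atTop (𝓝 0) := by
  have h1 : Tendsto (fun x : ℝ => x ^ m / Real.exp (c * x)) atTop (𝓝 0) :=
    (isLittleO_pow_exp_pos_mul_atTop (k := m) hc).tendsto_div_nhds_zero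
  have h2 : Tendsto (fun j : ℕ => (1 + A) ^ m * ((j : ℝ) ^ m / Real.exp (c * (j : ℝ)))) atTop
      (𝓝 ((1 + A) ^ m * 0)) := (h1.comp tendsto_natCast_atTop_atTop).const_mul _
  rw [mul_zero] at h2
  refine squeeze_zero' (Eventually.of_forall fun j => by positivity) ?_ h2
  filter_upwards [eventually_ge_atTop 1] with j hj
  have hj1 : (1 : ℝ) ≤ j := by exact_mod_cast hj
  rw [Real.exp_neg, ← div_eq_mul_inv, ← mul_div_assoc, ← mul_pow]
  gcongr
  nlinarith

/-- the constants of the smaller gaps -/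
noncomputable def sc (g : ℕ) : ℝ :=
  if g = 0 then 1 else (Real.log 2 + 1 - 1 / 2) /
      (1 - Real.exp (-((Real.log 2 + 2 - 1) / ((g : ℝ) + 1)))) ^ (g + 1) + 1

theorem sc_nonneg (g : ℕ) : 0 ≤ sc g := by
  unfold sc
  split_ifs
  · norm_num
  · have h1 : 0 ≤ Real.log 2 := Real.log_nonneg (by norm_num)
    have h2 : Real.exp (-((Real.log 2 + 2 - 1) / ((g : ℝ) + 1))) ≤ 1 := by
      apply Real.exp_le_one_iff.2
      have : 0 ≤ (Real.log 2 + 2 - 1) / ((g : ℝ) + 1) := div_nonneg (by linarith) (by positivity)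
      linarith
    have h3 : 0 ≤ (1 - Real.exp (-((Real.log 2 + 2 - 1) / ((g : ℝ) + 1)))) ^ (g + 1) :=
      pow_nonneg (by linarith) _
    have h4 : 0 ≤ (Real.log 2 + 1 - 1 / 2) /
      (1 - Real.exp (-((Real.log 2 + 2 - 1) / ((g : ℝ) + 1)))) ^ (g + 1) :=
      div_nonneg (by linarith) h3
    linarith

theorem sc_spec (g : ℕ) : ∃ m₀ : ℕ, ∀ m ≥ m₀, GR g m (sc g) := by
  unfold sc
  split_ifs with h
  · subst h
    refine ⟨0, fun m _ => ?_⟩
    unfold GR
    have := TD.trivial 0 m
    simpa using this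
  · exact Pool.Agent.TH527.LG.main_x (R := g) (by omega) (x := 2) (by norm_num) (by linarith)

/-- **One size bounds all large sizes.** -/
theorem semi {R : ℕ} (hR : 1 ≤ R) {ε : ℝ} (hε : 0 < ε) :
    ∀ᶠ j : ℕ in atTop, ∀ᶠ k : ℕ in atTop, GG R k ≤ (1 + ε) * GG R j + ε := by
  -- the parameter `β`
  obtain ⟨β, hβ0, hβ1, hβ⟩ : ∃ β : ℝ, 0 < β ∧ β < 1 / 2 ∧
      (1 + β) ^ R ≤ (1 + ε) * (1 - β) * (1 - β) ^ R := by
    have hc : Tendsto (fun β : ℝ => (1 + ε) * (1 - β) * (1 - β) ^ R - (1 + β) ^ R)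
        (𝓝 0) (𝓝 ((1 + ε) * (1 - 0) * (1 - 0) ^ R - (1 + 0) ^ R)) :=
      Continuous.tendsto (by fun_prop) 0
    have h0 : (0 : ℝ) < (1 + ε) * (1 - 0) * (1 - 0) ^ R - (1 + 0) ^ R := by
      simp; exact hε
    have h1 := ((hc.eventually_const_lt h0).and (eventually_lt_nhds (show (0 : ℝ) < 1 / 2 by
      norm_num)))
    have h2 := Filter.Eventually.filter_mono (nhdsWithin_le_nhds (s := Set.Ioi (0 : ℝ))) h1
    obtain ⟨β, ⟨g1, g2⟩, g3⟩ := (h2.and self_mem_nhdsWithin).exists
    exact ⟨β, g3, g2, by linarith⟩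
  obtain ⟨R', rfl⟩ : ∃ R', R = R' + 1 := ⟨R - 1, by omega⟩
  set R := R' + 1 with hRdef
  set a : ℝ := 1 - β with ha
  have ha0 : 0 < a := by rw [ha]; linarith
  set c : ℝ := β - Real.log (1 + β) with hc
  have hc0 : 0 < c := by
    have h1 := Real.log_lt_sub_one_of_pos (show 0 < 1 + β by linarith) (by linarith)
    rw [hc]; linarith
  set κ : ℕ → ℝ := kap R a β with hκ
  have hκ0 : ∀ i ≤ R, 0 ≤ κ i := by
    intro i hi
    rw [hκ]; unfold kap
    positivity
  set C1 : ℝ := ∑ i ∈ range R', κ (i + 1) * sc (R - (i + 1)) with hC1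
  have hC10 : 0 ≤ C1 := by
    rw [hC1]
    refine sum_nonneg fun i hi => mul_nonneg (hκ0 _ ?_) (sc_nonneg _)
    rw [mem_range] at hi; omega
  -- the error terms
  have t1 : Tendsto (fun j : ℕ => (1 + (1 + β) * (j : ℝ)) ^ R * Real.exp (-(c * (j : ℝ)))) atTop
      (𝓝 0) := tendsto_poly_exp R (by linarith) hc0
  have t2 : Tendsto (fun j : ℕ => (1 + (1 + β) * (j : ℝ)) ^ (2 * R) *
      Real.exp (-((1 + β) * (j : ℝ)))) atTop (𝓝 0) :=
    tendsto_poly_exp (2 * R) (by linarith) (by linarith)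
  have t3 : Tendsto (fun j : ℕ => 1 / a ^ R * ((1 + (1 + β) * (j : ℝ)) ^ R *
      Real.exp (-(c * (j : ℝ)))) + (C1 + 2 * κ 0 + 2 * R * κ R + R / β ^ R) *
      ((1 + (1 + β) * (j : ℝ)) ^ (2 * R) * Real.exp (-((1 + β) * (j : ℝ))))) atTop (𝓝 (1 / a ^ R * 0 +
        (C1 + 2 * κ 0 + 2 * R * κ R + R / β ^ R) * 0)) :=
    (t1.const_mul _).add (t2.const_mul _)
  rw [mul_zero, mul_zero, add_zero] at t3
  have hsmall : (0 : ℝ) < min β (ε * (1 - β)) := lt_min hβ0 (mul_pos hε (by linarith))
  filter_upwards [t3.eventually_lt_const hsmall, eventually_ge_atTop 1] with j hj hj1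
  have hjr : (1 : ℝ) ≤ j := by exact_mod_cast hj1
  set l : ℝ := (1 + β) * (j : ℝ) with hl
  have hl0 : 0 < l := by rw [hl]; positivity
  set E : ℝ := Real.exp (-l) with hE
  have hE0 : 0 < E := Real.exp_pos _
  have hE1 : E ≤ 1 := Real.exp_le_one_iff.2 (by linarith)
  set u : ℝ := (1 + l) ^ R with hu
  have hu1 : 1 ≤ u := one_le_pow₀ (by linarith)
  have huu : (1 + l) ^ (2 * R) = u * u := by rw [hu, two_mul, pow_add]
  set Q : ℝ := Real.exp (-(c * (j : ℝ))) with hQ
  have hQ0 : 0 < Q := Real.exp_pos _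
  have hQ1 : Q ≤ 1 := Real.exp_le_one_iff.2 (by
    have : 0 ≤ c * (j : ℝ) := by positivity
    linarith)
  rw [huu] at hj
  have hjβ := hj.trans_le (min_le_left _ _)
  have hjε := hj.trans_le (min_le_right _ _)
  set τ : ℝ := tau R j with hτ
  have hτ0 : 0 ≤ τ := tau_nonneg R j
  have hτ1 : τ ≤ 1 := tau_le_one R j
  set t : ℕ → ℝ := fun i => if i < j then 1 else τ with ht
  have htTD : ∀ i, TD R i (t i) := by
    intro i
    simp only [ht]
    split_ifs with h
    · exact TD.trivial R i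
    · have h2 : j ≤ i := by omega
      induction i, h2 using Nat.le_induction with
      | base => exact TD_tau R j
      | succ i hi ih => exact (ih (by omega)).succ
  have htτ : ∀ i, τ ≤ t i := by
    intro i
    simp only [ht]
    split_ifs <;> linarith
  have htJ : ∀ i ≥ j, t i = τ := by
    intro i hi
    simp only [ht]
    rw [if_neg (by omega)]
  -- the costs
  have hEE : EE t τ j l ≤ τ + Q := by
    unfold EE
    have h1 : ∑ i ∈ range j, (t i - τ) * l ^ i / (i.factorial : ℝ) ≤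
        ∑ i ∈ range j, l ^ i / (i.factorial : ℝ) := by
      refine sum_le_sum fun i hi => ?_
      have h2 : t i - τ ≤ 1 := by
        simp only [ht]
        split_ifs <;> linarith
      have h3 : 0 ≤ l ^ i := by positivity
      gcongr
      nlinarith
    have h4 := poisson_low hβ0 j
    have h5 : Real.exp (-l) * ∑ i ∈ range j, (t i - τ) * l ^ i / (i.factorial : ℝ) ≤
        Real.exp (-l) * ∑ i ∈ range j, l ^ i / (i.factorial : ℝ) :=
      mul_le_mul_of_nonneg_left h1 hE0.le
    have h6 : Real.exp (-(β - Real.log (1 + β)) * j) = Q := by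
      rw [hQ, hc]; congr 1; ring
    rw [h6] at h4
    linarith
  have hEE0 : 0 ≤ EE t τ j l := by
    unfold EE
    have h1 : 0 ≤ ∑ i ∈ range j, (t i - τ) * l ^ i / (i.factorial : ℝ) := by
      refine Finset.sum_nonneg fun i _ => ?_
      have := sub_nonneg.2 (htτ i)
      positivity
    positivity
  have hli : ∀ i ≤ R, l ^ i / (i.factorial : ℝ) ≤ u := by
    intro i hi
    have h1 : (1 : ℝ) ≤ (i.factorial : ℝ) := by exact_mod_cast i.factorial_pos
    calc l ^ i / (i.factorial : ℝ) ≤ l ^ i := div_le_self (by positivity) h1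
      _ ≤ (1 + l) ^ i := by gcongr; linarith
      _ ≤ u := pow_le_pow_right₀ (by linarith) hi
  have hpl : ∀ i < R, pl R t τ j l i ≤ u * E := by
    intro i hi
    unfold pl
    rw [if_neg (by omega)]
    exact mul_le_mul_of_nonneg_right (hli i hi.le) hE0.le
  have hpl0 : ∀ i, 0 ≤ pl R t τ j l i := by
    intro i
    unfold pl
    split_ifs <;> positivity
  have hplR : pl R t τ j l R ≤ 2 * u := by
    unfold pl
    rw [if_pos rfl]
    calc l ^ R / (R.factorial : ℝ) * EE t τ j l ≤ u * 2 := by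
          apply mul_le_mul (hli R le_rfl) (by linarith) hEE0 (by positivity)
      _ = 2 * u := by ring
  have hplR2 : pl R t τ j l R ≤ (1 + β) ^ R * GG R j + u * Q := by
    unfold pl
    rw [if_pos rfl]
    have h1 : l ^ R / (R.factorial : ℝ) * τ ≤ (1 + β) ^ R * GG R j := by
      have h2 : (j : ℝ) ^ R / (R.factorial : ℝ) ≤ ((j + R).choose R : ℝ) := by
        rw [div_le_iff₀ (by positivity)]
        have h3 : (j + 1) ^ R ≤ (j + R).descFactorial R := by
          have := Nat.pow_sub_le_descFactorial (j + R) R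
          have e : j + R + 1 - R = j + 1 := by omega
          rwa [e] at this
        rw [Nat.descFactorial_eq_factorial_mul_choose] at h3
        have h4 : (((j + 1) ^ R : ℕ) : ℝ) ≤ ((R.factorial * (j + R).choose R : ℕ) : ℝ) := by
          exact_mod_cast h3
        push_cast at h4
        have h5 : (j : ℝ) ^ R ≤ ((j : ℝ) + 1) ^ R := by gcongr; linarith
        linarith
      rw [hl, mul_pow, mul_div_assoc, mul_assoc]
      unfold GG
      gcongr
    have h2 : l ^ R / (R.factorial : ℝ) * Q ≤ u * Q :=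
      mul_le_mul_of_nonneg_right (hli R le_rfl) hQ0.le
    calc l ^ R / (R.factorial : ℝ) * EE t τ j l ≤ l ^ R / (R.factorial : ℝ) * (τ + Q) :=
          mul_le_mul_of_nonneg_left hEE (by positivity)
      _ = l ^ R / (R.factorial : ℝ) * τ + l ^ R / (R.factorial : ℝ) * Q := by ring
      _ ≤ _ := by linarith
  have hsumf : ∑ i ∈ range R, pl R t τ j l i ≤ R * (u * E) := by
    calc ∑ i ∈ range R, pl R t τ j l i ≤ ∑ _i ∈ range R, u * E :=
          sum_le_sum fun i hi => hpl i (mem_range.1 hi)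
      _ = R * (u * E) := by rw [sum_const, card_range, nsmul_eq_mul]
  have hsumf0 : 0 ≤ ∑ i ∈ range R, pl R t τ j l i := sum_nonneg fun i _ => hpl0 i
  have hRpos : (0 : ℝ) < R := by rw [hRdef]; positivity
  have huE : u * E ≤ u * u * E := by nlinarith [mul_pos (lt_of_lt_of_le one_pos hu1) hE0]
  have huE0 : 0 < u * u * E := by positivity
  -- the condition on `ρ`
  have hρ : pl R t τ j l 0 * (∑ i ∈ range R, pl R t τ j l i) / β ^ R < β := by
    have h1 : pl R t τ j l 0 * (∑ i ∈ range R, pl R t τ j l i) ≤ (u * E) * (R * (u * E)) :=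
      mul_le_mul (hpl 0 (by omega)) hsumf hsumf0 (by positivity)
    have h2 : (u * E) * (R * (u * E)) ≤ R * (u * u * E) := by
      have : u * u * E * E ≤ u * u * E * 1 := mul_le_mul_of_nonneg_left hE1 huE0.le
      nlinarith
    have h3 : pl R t τ j l 0 * (∑ i ∈ range R, pl R t τ j l i) / β ^ R ≤
        R / β ^ R * (u * u * E) := by
      rw [div_mul_eq_mul_div]
      apply div_le_div_of_nonneg_right (h1.trans h2) (by positivity)
    refine h3.trans_lt (lt_of_le_of_lt ?_ hjβ)
    have h4 : R / β ^ R * (u * u * E) ≤ (C1 + 2 * κ 0 + 2 * R * κ R + R / β ^ R) * (u * u * E) := by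
      apply mul_le_mul_of_nonneg_right _ huE0.le
      have g1 := hκ0 0 (by omega)
      have g2 : 0 ≤ 2 * R * κ R := mul_nonneg (by positivity) (hκ0 R le_rfl)
      linarith
    have h5 : 0 ≤ 1 / a ^ R * (u * Q) := by positivity
    linarith
  have hCT : Pool.Agent.W724.TG2.CT R κ (pl R t τ j l) (pl R t τ j l) (pl R t τ j l) sc
      (∑ i ∈ range R, pl R t τ j l i) < ((1 + ε) * GG R j + ε) * (1 - β) := by
    unfold Pool.Agent.W724.TG2.CT
    have e1 : ∑ i ∈ range R, κ (i + 1) * pl R t τ j l (i + 1) * sc (R - (i + 1)) =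
        ∑ i ∈ range R', κ (i + 1) * pl R t τ j l (i + 1) * sc (R - (i + 1)) +
          κ R * pl R t τ j l R := by
      rw [hRdef, sum_range_succ, Nat.sub_self]
      have : sc 0 = 1 := by unfold sc; simp
      rw [this, mul_one]
    have e2 : ∑ i ∈ range R', κ (i + 1) * pl R t τ j l (i + 1) * sc (R - (i + 1)) ≤
        C1 * (u * E) := by
      rw [hC1, sum_mul]
      refine sum_le_sum fun i hi => ?_
      rw [mem_range] at hi
      have h1 := hpl (i + 1) (by omega)
      have h2 := hκ0 (i + 1) (by omega)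
      have h3 := sc_nonneg (R - (i + 1))
      calc κ (i + 1) * pl R t τ j l (i + 1) * sc (R - (i + 1))
          = (κ (i + 1) * sc (R - (i + 1))) * pl R t τ j l (i + 1) := by ring
        _ ≤ (κ (i + 1) * sc (R - (i + 1))) * (u * E) :=
            mul_le_mul_of_nonneg_left h1 (mul_nonneg h2 h3)
    have e3 : κ R = 1 / a ^ R := by
      rw [hκ]; unfold kap
      rw [Nat.choose_self, Nat.sub_self]
      simp
    have e4 : κ 0 * pl R t τ j l 0 * pl R t τ j l R ≤ 2 * κ 0 * (u * u * E) := by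
      have h1 := hκ0 0 (by omega)
      calc κ 0 * pl R t τ j l 0 * pl R t τ j l R ≤ κ 0 * (u * E) * (2 * u) := by
            apply mul_le_mul (mul_le_mul_of_nonneg_left (hpl 0 (by omega)) h1) hplR (hpl0 R)
              (by positivity)
        _ = 2 * κ 0 * (u * u * E) := by ring
    have e5 : κ R * pl R t τ j l R * ∑ i ∈ range R, pl R t τ j l i ≤
        2 * R * κ R * (u * u * E) := by
      have h1 := hκ0 R le_rfl
      calc κ R * pl R t τ j l R * ∑ i ∈ range R, pl R t τ j l i ≤
          κ R * (2 * u) * (R * (u * E)) := by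
            apply mul_le_mul (mul_le_mul_of_nonneg_left hplR h1) hsumf hsumf0 (by positivity)
        _ = 2 * R * κ R * (u * u * E) := by ring
    have e6 : κ R * pl R t τ j l R ≤ (1 + ε) * (1 - β) * GG R j + 1 / a ^ R * (u * Q) := by
      rw [e3]
      calc 1 / a ^ R * pl R t τ j l R ≤ 1 / a ^ R * ((1 + β) ^ R * GG R j + u * Q) :=
            mul_le_mul_of_nonneg_left hplR2 (by positivity)
        _ = (1 + β) ^ R / a ^ R * GG R j + 1 / a ^ R * (u * Q) := by ring
        _ ≤ _ := by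
            have h1 : (1 + β) ^ R / a ^ R ≤ (1 + ε) * (1 - β) := by
              rw [div_le_iff₀ (by positivity)]
              exact hβ
            have h2 := mul_le_mul_of_nonneg_right h1 (GG_nonneg R j)
            linarith
    have e7 : C1 * (u * E) ≤ C1 * (u * u * E) := mul_le_mul_of_nonneg_left huE hC10
    have e8 : 0 ≤ R / β ^ R * (u * u * E) := by positivity
    have e9 : (C1 + 2 * κ 0 + 2 * R * κ R + R / β ^ R) * (u * u * E) =
        C1 * (u * u * E) + 2 * κ 0 * (u * u * E) + 2 * R * κ R * (u * u * E) +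
          R / β ^ R * (u * u * E) := by ring
    have e10 : ((1 + ε) * GG R j + ε) * (1 - β) = (1 + ε) * (1 - β) * GG R j + ε * (1 - β) := by
      ring
    rw [e9] at hjε
    rw [e1, e10]
    linarith
  obtain ⟨K, hK⟩ := Pool.Agent.W724.TG2.main (R := R) (a := a) (b := β) ha0 hβ0 (by rw [ha]; ring)
    hl0 hl0 hl0 htTD hτ0 htτ htJ (s := sc) sc_nonneg (fun g _ => sc_spec g) hρ (by linarith) hCT
  filter_upwards [eventually_ge_atTop K] with k hk
  have h1 := tau_le (hK k hk)
  have h2 : (0 : ℝ) < ((k + R).choose R : ℝ) := by exact_mod_cast Nat.choose_pos (by omega)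
  unfold GG
  rw [le_div_iff₀ h2] at h1
  unfold GG at h1
  linarith

end Run7.h538.LC
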